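import Pool.Agent.Q122.ExclusiveProofs

set_option autoImplicit false

namespace Pool.Agent.Results.MP_091b59_co.BoundedExclusive

open Q122

/-- Negative answer to Q1 of MP_091b59_co: the exclusive sum number is bounded in terms of the sum
index. -/
theorem result : ∀ C : ℕ, ∃ N : ℕ, ∀ (V : Type) [Fintype V] (G : SimpleGraph V),
    sumIndex G ≤ C → ∃ r, IsExclusiveSumNumber G r ∧ r ≤ N := by
  intro C
  refine ⟨C * 4 ^ C, fun V _ G hC => ?_⟩
  obtain ⟨r, hr, hrN⟩ := exclusive_le_of_sumIndex G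
  exact ⟨r, hr, hrN.trans (Nat.mul_le_mul hC (Nat.pow_le_pow_right (by norm_num) hC))⟩

end Pool.Agent.Results.MP_091b59_co.BoundedExclusive
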